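import Pool.Agent.H466.HD.SB

/-!
# HD: the reference size and zeta at a regular point
-/

set_option autoImplicit false

namespace Pool.Agent.H670.HD

open Complex MeasureTheory Set Filter Topology
open scoped ComplexConjugate
open Pool.Agent.H466.HF Pool.Agent.H466.LD Pool.Agent.H466.HP Pool.Agent.H466.HN
open Pool.Agent.H466.HD
open Pool.Agent.H862.VK (Yz)

/-- the function is at most the gamma factor times zeta -/
lemma F_le_zeta {z : ℂ} (hz : 0 ≤ z.re) (hi : z.im ≠ 0) :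
    ‖LL gk 0 z‖ ≤ ‖gz z‖ * ‖riemannZeta (1 / 2 + z)‖ := by
  have hne : (1 / 2 + z : ℂ) ≠ 1 := by
    intro h
    have h1 := congrArg im h
    simp at h1
    exact hi h1
  rw [xi_norm hz, Z1_ne hne, norm_mul]
  apply mul_le_mul_of_nonneg_left _ (norm_nonneg _)
  have h2 := den_norm hz
  rw [div_le_iff₀ (by linarith)]
  have h7 := ratio_le hz
  calc ‖(1 / 2 + z) - 1‖ * ‖riemannZeta (1 / 2 + z)‖
      ≤ ‖z + 3 / 2‖ * ‖riemannZeta (1 / 2 + z)‖ := by gcongr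
    _ = _ := mul_comm _ _

/-- the real part of the logarithmic derivative of the gamma factor, upper bound -/
lemma Dz_up {T y : ℝ} (hT : 10 ≤ T) (h1 : 1 ≤ y) (h2 : y ≤ 2 * T + 1) :
    (Dz ((y : ℂ) * I)).re ≤ Real.log T / 2 + 10 := by
  have h3 := (abs_le.mp (Dz_re (T := y) h1)).2
  have h5 : Real.log y ≤ Real.log T + 1 := by
    have h6 : Real.log y ≤ Real.log (Real.exp 1 * T) := by
      apply Real.log_le_log (by linarith)
      have := Real.exp_one_gt_d9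
      nlinarith
    rw [Real.log_mul (Real.exp_pos 1).ne' (by linarith), Real.log_exp] at h6
    linarith
  linarith

lemma Dz_lo {T t : ℝ} (hT : 10 ≤ T) (h1 : T ≤ t) :
    Real.log T / 2 - 9 ≤ (Dz ((t : ℂ) * I)).re := by
  have h3 := (abs_le.mp (Dz_re (T := t) (by linarith))).1
  have h4 : Real.log T ≤ Real.log t := Real.log_le_log (by linarith) h1
  linarith

/-- the upper bound of the reference size -/
lemma ref_le {T t μ y b B C2 : ℝ} (H : Gd (LL gk 0) gz Dz 12 b B C2 9) (hT : 10 ≤ T)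
    (ht : T ≤ t) (ht2 : t ≤ 2 * T) (hμ : 0 < μ) (hΔ : μ * Real.log T ≤ 1 / 2)
    (hy : |y - t| ≤ 1) :
    Gm T t μ ≤ Real.exp 100 * ‖gz ((y : ℂ) * I)‖ *
      ‖riemannZeta (1 / 2 + (μ * Real.log T : ℝ) + (t : ℂ) * I)‖ := by
  obtain ⟨hy1, hy2⟩ := abs_le.mp hy
  have hL : 0 < Real.log T := Real.log_pos (by linarith)
  set L := Real.log T with hLdef
  set Δ := μ * L with hΔdef
  have hΔ0 : 0 < Δ := by positivity
  set z0 : ℂ := ((Δ : ℝ) : ℂ) + (t : ℂ) * I with hz0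
  have hre : z0.re = Δ := by simp [hz0]
  have him : z0.im = t := by simp [hz0]
  have h1 : ‖LL gk 0 z0‖ ≤ ‖gz z0‖ * ‖riemannZeta (1 / 2 + z0)‖ :=
    F_le_zeta (by rw [hre]; exact hΔ0.le) (by rw [him]; linarith)
  have h2 := (H.gsize y (z := z0) (by rw [hre]; exact hΔ0.le)).1
  rw [hre, him] at h2
  have h3 := Dz_up (y := y) hT (by linarith) (by linarith)
  have e1 : (1 / 2 : ℂ) + ((Δ : ℝ) : ℂ) + (t : ℂ) * I = 1 / 2 + z0 := by
    rw [hz0]
    ring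
  rw [e1]
  unfold Gm
  have e2 : μ * Real.log T ^ 2 / 2 = L / 2 * Δ := by
    rw [hΔdef, ← hLdef]
    ring
  rw [e2, ← hLdef, ← hΔdef, ← hz0]
  have h4 : ‖gz z0‖ * Real.exp (-(L / 2 * Δ)) ≤ Real.exp 100 * ‖gz ((y : ℂ) * I)‖ := by
    calc ‖gz z0‖ * Real.exp (-(L / 2 * Δ))
        ≤ (‖gz ((y : ℂ) * I)‖ * Real.exp ((Dz ((y : ℂ) * I)).re * Δ +
          3 * 12 * (1 + Δ ^ 2 + (t - y) ^ 2))) * Real.exp (-(L / 2 * Δ)) := by
          gcongr
      _ = ‖gz ((y : ℂ) * I)‖ * Real.exp ((Dz ((y : ℂ) * I)).re * Δ +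
          3 * 12 * (1 + Δ ^ 2 + (t - y) ^ 2) + -(L / 2 * Δ)) := by
          rw [mul_assoc, ← Real.exp_add]
      _ ≤ ‖gz ((y : ℂ) * I)‖ * Real.exp 100 := by
          apply mul_le_mul_of_nonneg_left _ (norm_nonneg _)
          apply Real.exp_le_exp.mpr
          have h5 : (Dz ((y : ℂ) * I)).re * Δ ≤ (L / 2 + 10) * Δ :=
            mul_le_mul_of_nonneg_right h3 hΔ0.le
          have h6 : Δ ^ 2 ≤ 1 / 4 := by nlinarith
          have h7 : (t - y) ^ 2 ≤ 1 := by nlinarith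
          linarith
      _ = _ := mul_comm _ _
  calc ‖LL gk 0 z0‖ * Real.exp (-(L / 2 * Δ))
      ≤ (‖gz z0‖ * ‖riemannZeta (1 / 2 + z0)‖) * Real.exp (-(L / 2 * Δ)) := by
        gcongr
    _ = (‖gz z0‖ * Real.exp (-(L / 2 * Δ))) * ‖riemannZeta (1 / 2 + z0)‖ := by ring
    _ ≤ (Real.exp 100 * ‖gz ((y : ℂ) * I)‖) * ‖riemannZeta (1 / 2 + z0)‖ := by
        gcongr

/-- the lower bound for zeta -/
lemma zeta_ge {T t μ κ A1 b B C2 : ℝ} (H : Gd (LL gk 0) gz Dz 12 b B C2 9) (hT : 10 ≤ T)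
    (hbig : 32 * (b + 800) ≤ Real.log T) (hκ : 0 < κ) (hκ0 : κ ≤ 1 / 128) (hA1 : 1 ≤ A1)
    (ht : T ≤ t) (hR : Rg T t A1 (1 / κ) κ) (hμ : 0 < μ)
    (hA : A1 ≤ μ * Real.log T ^ 2) (hΔ : μ * Real.log T ≤ 1 / 2) :
    T ^ (-(1 / 16 : ℝ)) ≤ ‖riemannZeta (1 / 2 + (μ * Real.log T : ℝ) + (t : ℂ) * I)‖ := by
  have hL : 0 < Real.log T := Real.log_pos (by linarith)
  have hTe : T ^ (-(1 / 16 : ℝ)) = Real.exp (-(Real.log T / 16)) := by
    rw [Real.rpow_def_of_pos (by linarith)]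
    congr 1
    ring
  rw [hTe]
  set L := Real.log T with hLdef
  set Δ := μ * L with hΔdef
  have hΔ0 : 0 < Δ := by positivity
  set z0 : ℂ := ((Δ : ℝ) : ℂ) + (t : ℂ) * I with hz0
  have hre : z0.re = Δ := by simp [hz0]
  have him : z0.im = t := by simp [hz0]
  have e1 : (1 / 2 : ℂ) + ((Δ : ℝ) : ℂ) + (t : ℂ) * I = 1 / 2 + z0 := by
    rw [hz0]
    ring
  rw [e1]
  set z4 : ℂ := ((4 : ℝ) : ℂ) + (t : ℂ) * I with hz4
  have hre4 : z4.re = 4 := by simp [hz4]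
  have him4 : z4.im = t := by simp [hz4]
  have hy0 : A1 / L ≤ Δ := by
    rw [div_le_iff₀ hL]
    calc A1 ≤ μ * L ^ 2 := hA
      _ = Δ * L := by rw [hΔdef]; ring
  have hM : (1 : ℝ) ≤ 1 / κ := by
    rw [le_div_iff₀ hκ]
    linarith
  -- horizontal growth
  have s1 : ∀ u ∈ uIcc Δ 4, Yz ((u : ℂ) + (t : ℂ) * I) ≠ 0 ∧
      ‖P ((u : ℂ) + (t : ℂ) * I) - ((L / 2 : ℝ) : ℂ)‖ ≤ κ * L := by
    intro u hu
    rw [uIcc_of_le (by linarith)] at hu
    have hmem : (u : ℂ) + (t : ℂ) * I ∈ Kt t (A1 / L) 4 (1 / κ) := by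
      refine ⟨by simpa using hy0.trans hu.1, by simpa using hu.2, ?_⟩
      simp
      have h0 : 0 ≤ u := by linarith [hu.1]
      positivity
    exact ⟨cone_ne (by positivity) hM hR.cf hmem, hR.pb _ hmem⟩
  have h1 := hor s1
  rw [← hz0, ← hz4, abs_of_nonneg (by linarith : (0 : ℝ) ≤ 4 - Δ)] at h1
  -- the bounds
  have h2 : ‖LL gk 0 z0‖ ≤ ‖gz z0‖ * ‖riemannZeta (1 / 2 + z0)‖ :=
    F_le_zeta (by rw [hre]; exact hΔ0.le) (by rw [him]; linarith)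
  have h3 := (H.gsize t (z := z0) (by rw [hre]; exact hΔ0.le)).1
  rw [hre, him] at h3
  have h4 := (H.gsize t (z := z4) (by rw [hre4]; norm_num)).2
  rw [hre4, him4] at h4
  have h5 := H.lo z4 (by rw [hre4]; norm_num)
  have hD := Dz_lo hT ht
  set g := ‖gz ((t : ℂ) * I)‖ with hg
  have hg0 : 0 < g := norm_pos_iff.mpr (H.G.ne _ (by simp))
  set D := (Dz ((t : ℂ) * I)).re with hDdef
  set Z := ‖riemannZeta (1 / 2 + z0)‖ with hZ
  have hZ0 : 0 ≤ Z := norm_nonneg _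
  -- combine
  have c1 : Real.exp (-b) * (g * Real.exp (D * 4 - 3 * 12 * (1 + 4 ^ 2 + (t - t) ^ 2))) ≤
      ((g * Real.exp (D * Δ + 3 * 12 * (1 + Δ ^ 2 + (t - t) ^ 2))) * Z) *
        Real.exp (L / 2 * (4 - Δ) + κ * L * (4 - Δ)) := by
    calc Real.exp (-b) * (g * Real.exp (D * 4 - 3 * 12 * (1 + 4 ^ 2 + (t - t) ^ 2)))
        ≤ Real.exp (-b) * ‖gz z4‖ := by gcongr
      _ ≤ ‖LL gk 0 z4‖ := h5
      _ ≤ ‖LL gk 0 z0‖ * Real.exp (L / 2 * (4 - Δ) + κ * L * (4 - Δ)) := h1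
      _ ≤ (‖gz z0‖ * Z) * Real.exp (L / 2 * (4 - Δ) + κ * L * (4 - Δ)) := by gcongr
      _ ≤ _ := by gcongr
  have c2 : Real.exp (-b) * (g * Real.exp (D * 4 - 3 * 12 * (1 + 4 ^ 2 + (t - t) ^ 2))) =
      g * Real.exp (-b + (D * 4 - 612)) := by
    rw [Real.exp_add, sub_self]
    have : (3 : ℝ) * 12 * (1 + 4 ^ 2 + 0 ^ 2) = 612 := by norm_num
    rw [this]
    ring
  have c3 : ((g * Real.exp (D * Δ + 3 * 12 * (1 + Δ ^ 2 + (t - t) ^ 2))) * Z) *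
        Real.exp (L / 2 * (4 - Δ) + κ * L * (4 - Δ)) =
      g * (Z * Real.exp ((D * Δ + 36 * (1 + Δ ^ 2)) + (L / 2 * (4 - Δ) + κ * L * (4 - Δ)))) := by
    rw [Real.exp_add (D * Δ + 36 * (1 + Δ ^ 2)), sub_self]
    have : (3 : ℝ) * 12 * (1 + Δ ^ 2 + 0 ^ 2) = 36 * (1 + Δ ^ 2) := by ring
    rw [this]
    ring
  rw [c2, c3] at c1
  have c4 := le_of_mul_le_mul_left c1 hg0
  have c5 : Real.exp (-(L / 16)) * Real.exp ((D * Δ + 36 * (1 + Δ ^ 2)) +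
      (L / 2 * (4 - Δ) + κ * L * (4 - Δ))) ≤ Real.exp (-b + (D * 4 - 612)) := by
    rw [← Real.exp_add]
    apply Real.exp_le_exp.mpr
    have a1 : (L / 2 - 9) * (4 - Δ) ≤ D * (4 - Δ) :=
      mul_le_mul_of_nonneg_right hD (by linarith)
    have a2 : Δ ^ 2 ≤ 1 / 4 := by nlinarith
    have a3 : κ * L * (4 - Δ) ≤ 1 / 128 * L * 4 := by
      have : κ * L ≤ 1 / 128 * L := mul_le_mul_of_nonneg_right hκ0 hL.le
      exact mul_le_mul this (by linarith) (by linarith) (by positivity)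
    have a4 : 9 * (4 - Δ) ≤ 36 := by linarith
    have a5 : (L / 2 - 9) * (4 - Δ) = L / 2 * (4 - Δ) - 9 * (4 - Δ) := by ring
    have a6 : D * (4 - Δ) = D * 4 - D * Δ := by ring
    linarith
  exact le_of_mul_le_mul_right (c5.trans c4) (Real.exp_pos _)

theorem gr : S_GR := by
  obtain ⟨b, B, C2, H⟩ := gd_xi
  refine ⟨Real.exp 100, 1 / 128, Real.exp_pos _, by norm_num, fun κ hκ hκ0 A1 hA1 => ?_⟩
  refine ⟨max 10 (Real.exp (32 * (b + 800))), le_max_left _ _, ?_⟩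
  intro T t μ hT ht ht2 hR hμ hA hΔ
  have hT10 : 10 ≤ T := (le_max_left _ _).trans hT
  have hTb : Real.exp (32 * (b + 800)) ≤ T := (le_max_right _ _).trans hT
  have hlog : 32 * (b + 800) ≤ Real.log T := by
    rwa [Real.le_log_iff_exp_le (by linarith)]
  have hL : 0 < Real.log T := Real.log_pos (by linarith)
  have hM : (1 : ℝ) ≤ 1 / κ := by
    rw [le_div_iff₀ hκ]
    linarith
  refine ⟨?_, fun y hy => ref_le H hT10 ht ht2 hμ hΔ hy,
    zeta_ge H hT10 hlog hκ hκ0 hA1 ht hR hμ hA hΔ⟩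
  unfold Gm
  refine mul_pos (norm_pos_iff.mpr (F_ne (cone_ne (t := t) (y0 := A1 / Real.log T) (x1 := 4)
    (M := 1 / κ) (by positivity) hM hR.cf ?_))) (Real.exp_pos _)
  have hy0 : A1 / Real.log T ≤ μ * Real.log T := by
    rw [div_le_iff₀ hL]
    calc A1 ≤ μ * Real.log T ^ 2 := hA
      _ = μ * Real.log T * Real.log T := by ring
  refine ⟨by simpa using hy0, ?_, ?_⟩
  · have : (((μ * Real.log T : ℝ) : ℂ) + (t : ℂ) * I).re = μ * Real.log T := by simp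
    rw [this]
    linarith
  · have e : (((μ * Real.log T : ℝ) : ℂ) + (t : ℂ) * I).im = t := by simp
    have e' : (((μ * Real.log T : ℝ) : ℂ) + (t : ℂ) * I).re = μ * Real.log T := by simp
    rw [e, e', sub_self, abs_zero]
    positivity

end Pool.Agent.H670.HD
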